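import Pool.Agent.helper76.FF2.Spec

/-!
# Row ff2:E2A
-/

set_option autoImplicit false

namespace Pool.Agent.FF2

open Polynomial

theorem E2A_emp {K : Type*} : (∅ : Finset K).powersetCard 2 = ∅ :=
  Finset.powersetCard_eq_empty.2 (by simp)

/-- two-element subsets of `cons a R h` -/
theorem E2A_sum' {K : Type*} [Field K] [DecidableEq K] (R : Finset K) (a : K) (h : a ∉ R) (F : Finset K → K) :
    ∑ p ∈ (Finset.cons a R h).powersetCard 2, F p = ∑ p ∈ R.powersetCard 2, F p +
      ∑ x ∈ R, F {a, x} := by
  rw [Finset.cons_eq_insert, Finset.powersetCard_succ_insert h 1, Finset.sum_union, Finset.sum_image,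
    Finset.powersetCard_one, Finset.sum_map]
  · rfl
  · intro p hp q hq he
    have hp' : a ∉ p := fun hm => h ((Finset.mem_powersetCard.1 hp).1 hm)
    have hq' : a ∉ q := fun hm => h ((Finset.mem_powersetCard.1 hq).1 hm)
    rw [← Finset.erase_insert hp', ← Finset.erase_insert hq', he]
  · rw [Finset.disjoint_left]
    intro p hp hq
    obtain ⟨q, -, rfl⟩ := Finset.mem_image.1 hq
    exact h ((Finset.mem_powersetCard.1 hp).1 (Finset.mem_insert_self _ _))

theorem E2A_e2 {K : Type*} [Field K] (R : Finset K) (a : K) (h : a ∉ R) (z : K → K) :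
    e2 (Finset.cons a R h) z = e2 R z + z a * ∑ x ∈ R, z x := by
  classical
  unfold e2
  rw [E2A_sum' R a h, Finset.mul_sum]
  congr 1
  refine Finset.sum_congr rfl fun x hx => ?_
  have hax : a ≠ x := fun he => h (he ▸ hx)
  rw [Finset.prod_pair hax]

theorem E2A (K : Type*) [Field K] [CharP K 2] : E2A_stmt K := by
  classical
  have h2 : (2 : K) = 0 := CharTwo.two_eq_zero
  refine ⟨fun z => ?_, fun R a h z => E2A_e2 R a h z, ?_, ?_, ?_, ?_, ?_, ?_, ?_⟩
  · simp [e2, E2A_emp]
  · simp [Bp, E2A_emp]
  · intro R a h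
    unfold Bp
    rw [E2A_sum' R a h]
    congr 1
    refine Finset.sum_congr rfl fun x hx => ?_
    have hax : a ≠ x := fun he => h (he ▸ hx)
    rw [Finset.prod_pair hax, Finset.sum_pair hax]
  · intro R z t hzt
    unfold e2
    refine Finset.sum_congr rfl fun p hp => Finset.prod_congr rfl fun x hx => ?_
    exact hzt x ((Finset.mem_powersetCard.1 hp).1 hx)
  · intro R z t
    induction R using Finset.cons_induction with
    | empty => simp [e2, E2A_emp]
    | cons a s h ih =>
      rw [E2A_e2, E2A_e2, E2A_e2, ih, Finset.sum_cons, Finset.sum_cons, Finset.sum_cons, Finset.sum_add_distrib]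
      linear_combination (-(z a * t a)) * h2
  · intro R c z
    induction R using Finset.cons_induction with
    | empty => simp [e2, E2A_emp]
    | cons a s h ih =>
      rw [E2A_e2, E2A_e2, ih, ← Finset.mul_sum]
      ring
  · intro R c
    induction R using Finset.cons_induction with
    | empty => simp [e2, E2A_emp]
    | cons a s h ih =>
      rw [E2A_e2, ih, Finset.card_cons, Finset.sum_const, nsmul_eq_mul, Nat.choose_succ_succ' s.card 1, Nat.choose_one_right]
      push_cast
      ring
  · intro R z
    induction R using Finset.cons_induction with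
    | empty => simp [e2, E2A_emp]
    | cons a s h ih =>
      have h3 : (∑ x ∈ s, z x) ^ 2 = ∑ x ∈ s, z x ^ 2 := CharTwo.sum_sq s z
      rw [E2A_e2, E2A_e2, ih, ← h3]
      linear_combination (-(e2 s z * z a * ∑ x ∈ s, z x)) * h2

end Pool.Agent.FF2
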